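import Pool.Agent.X247.TW.Dfa

/-!
# MP_cf558f_lc, Q1: membership for automata with translucent words in time `O(n log n)`

Every deterministic finite automaton with translucent words has a random access program deciding
membership in time `O(n log n)`, hence in time `o(n²)`. So quadratic time is not optimal.
-/

namespace Pool.Agent.Results.MP_cf558f_lc.TransWords

open Pool.Agent.H672R2.Ram Pool.Agent.X247.TW Asymptotics Filter

/-- The program `P` decides the language `L` within time `T`: started in the memory that holds a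
word `u` (see `inp`), it stops within time `T |u|`, and then register `1` holds `1` if and only
if `u ∈ L`. -/
def DecidesIn {s : ℕ} (P : Prog) (L : Set (List (Fin s))) (T : ℕ → ℕ) : Prop :=
  ∀ u : List (Fin s), ∃ (m : Mem) (t : ℕ), Runs P (inp u) m t ∧ t ≤ T u.length ∧
    (m.v 1 = 1 ↔ u ∈ L)

theorem littleO (C : ℕ) : (fun n : ℕ => ((C * ((n + 1) * (Nat.log 2 n + 1)) : ℕ) : ℝ)) =o[atTop]
    (fun n : ℕ => (n : ℝ) ^ 2) := by
  have h1 : (fun n : ℕ => (Nat.log 2 n : ℝ)) =o[atTop] (fun n : ℕ => (n : ℝ)) := by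
    have h2 : (fun n : ℕ => Real.log (n : ℝ)) =o[atTop] (fun n : ℕ => (n : ℝ)) :=
      Real.isLittleO_log_id_atTop.comp_tendsto tendsto_natCast_atTop_atTop
    refine IsBigO.trans_isLittleO ?_ h2
    refine IsBigO.of_bound (1 / Real.log 2) (Eventually.of_forall fun n => ?_)
    have h3 : (Nat.log 2 n : ℝ) ≤ Real.logb 2 n := Real.natLog_le_logb n 2
    have h4 : Real.logb 2 n = Real.log n / Real.log 2 := rfl
    rw [Real.norm_of_nonneg (Nat.cast_nonneg _)]
    have h5 : (0 : ℝ) ≤ Real.log n := Real.log_natCast_nonneg n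
    rw [Real.norm_of_nonneg h5]
    rw [h4] at h3
    rw [one_div_mul_eq_div]
    exact h3
  have h2 : (fun _ : ℕ => (1 : ℝ)) =o[atTop] (fun n : ℕ => (n : ℝ)) :=
    (isLittleO_const_id_atTop (1 : ℝ)).comp_tendsto tendsto_natCast_atTop_atTop
  have h3 : (fun n : ℕ => ((n : ℝ) + 1)) =O[atTop] (fun n : ℕ => (n : ℝ)) :=
    (isBigO_refl _ _).add h2.isBigO
  have h4 := (h3.mul_isLittleO (h1.add h2)).const_mul_left (C : ℝ)
  refine h4.congr (fun n => ?_) (fun n => ?_)
  · push_cast
    ring
  · ring

/-- For every deterministic finite automaton with translucent words `A` there are a program `P` of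
the random access machine and a constant `C`, such that `P` decides membership in the language of
`A` within time `C (n + 1) (log₂ n + 1)` on the words of length `n`; in particular within
time `o(n²)`. -/
theorem result {Q : Type} [Fintype Q] {s : ℕ} (A : DFAwtw Q s) :
    ∃ (P : Prog) (C : ℕ) (T : ℕ → ℕ), DecidesIn P A.language T ∧
      (∀ n, T n = C * ((n + 1) * (Nat.log 2 n + 1))) ∧
      (fun n => (T n : ℝ)) =o[atTop] (fun n => (n : ℝ) ^ 2) := by
  obtain ⟨P, C, hP⟩ := ok_prog A.sm (A.nn (A.root A.init))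
  refine ⟨P, C, fun n => C * ((n + 1) * (Nat.log 2 n + 1)), fun u => ?_, fun _ => rfl, littleO C⟩
  obtain ⟨m, t, h1, h2, h3⟩ := hP u
  exact ⟨m, t, h1, h2, h3.trans (A.acc_iff u)⟩

end Pool.Agent.Results.MP_cf558f_lc.TransWords
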